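import Pool.Agent.X25.GP.Prog

/-! Narrow progressions of solutions: the main theorems. -/

set_option autoImplicit false

namespace Pool.Agent.X25.GP

open Finset Filter
open Pool.Agent.Y843.AC (APs dg Rep)
open Pool.Agent.H560R3.GB (sing C₂ energy)
open Pool.Agent.W93.PG (cnt WinP)

/-- `(2n) ^ (θ/2) ≤ n ^ θ` and `log (2n) ^ B ≤ log n ^ (B+1)` for large `n` -/
theorem conv (θ : ℝ) (hθ : 0 < θ) (B : ℕ) : ∃ n₀ : ℕ, ∀ n : ℕ, n₀ ≤ n →
    ((2 * n : ℕ) : ℝ) ^ (θ / 2) ≤ (n : ℝ) ^ θ ∧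
    Real.log ((2 * n : ℕ) : ℝ) ^ B ≤ Real.log n ^ (B + 1) := by
  have h1 : ∀ᶠ n : ℕ in atTop, (2 : ℝ) ^ B ≤ Real.log n :=
    (Real.tendsto_log_atTop.comp tendsto_natCast_atTop_atTop).eventually_ge_atTop _
  obtain ⟨n₁, hn₁⟩ := eventually_atTop.1 h1
  refine ⟨max n₁ 2, fun n hn => ?_⟩
  have hn2 : 2 ≤ n := (le_max_right _ _).trans hn
  have hnr : (2 : ℝ) ≤ n := by exact_mod_cast hn2
  have hlog0 : 0 ≤ Real.log n := Real.log_natCast_nonneg n
  constructor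
  · push_cast
    calc (2 * (n : ℝ)) ^ (θ / 2) ≤ ((n : ℝ) ^ (2 : ℝ)) ^ (θ / 2) := by
          apply Real.rpow_le_rpow (by positivity) _ (by positivity)
          rw [Real.rpow_two]; nlinarith
      _ = (n : ℝ) ^ θ := by
          rw [← Real.rpow_mul (by positivity)]
          congr 1; ring
  · have h2 : Real.log ((2 * n : ℕ) : ℝ) ≤ 2 * Real.log n := by
      push_cast
      rw [Real.log_mul (by norm_num) (by positivity)]
      have := Real.log_le_log (by norm_num) hnr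
      linarith
    have h3 : 0 ≤ Real.log ((2 * n : ℕ) : ℝ) := Real.log_natCast_nonneg _
    calc Real.log ((2 * n : ℕ) : ℝ) ^ B ≤ (2 * Real.log n) ^ B := pow_le_pow_left₀ h3 h2 B
      _ = 2 ^ B * Real.log n ^ B := mul_pow _ _ _
      _ ≤ Real.log n * Real.log n ^ B :=
          mul_le_mul_of_nonneg_right (hn₁ n ((le_max_left _ _).trans hn)) (pow_nonneg hlog0 B)
      _ = Real.log n ^ (B + 1) := by ring

theorem image_sub {n : ℕ} {a : ℤ} {X : ℕ} (ha : -(n : ℤ) ≤ a) {S : Finset ℤ}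
    (hS : S ⊆ sols n a X) : S.image (fx n) ⊆ Ioc ((n : ℤ) + a).toNat (((n : ℤ) + a).toNat + X) ∧
    (∀ x ∈ S, -(n : ℤ) < x) ∧ ∀ m ∈ S.image (fx n), m.Prime ∧ (2 * n - m).Prime := by
  classical
  have h0 : ∀ x ∈ S, a < x ∧ x ≤ a + X ∧ Solves n x := by
    intro x hx
    have h1 := hS hx
    unfold sols at h1
    obtain ⟨h2, h3⟩ := Finset.mem_filter.1 h1
    obtain ⟨h4, h5⟩ := Finset.mem_Ioc.1 h2
    exact ⟨h4, h5, h3⟩
  refine ⟨?_, fun x hx => by have := h0 x hx; omega, ?_⟩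
  · intro m hm
    obtain ⟨x, hx, rfl⟩ := Finset.mem_image.1 hm
    obtain ⟨h1, h2, -⟩ := h0 x hx
    rw [Finset.mem_Ioc]
    unfold fx
    omega
  · intro m hm
    obtain ⟨x, hx, rfl⟩ := Finset.mem_image.1 hm
    obtain ⟨-, -, h3⟩ := h0 x hx
    rw [solves_iff] at h3
    exact ⟨h3.2.2.1, h3.2.2.2⟩

/-- **upper bound** -/
theorem upper (k : ℕ) (hk : 1 ≤ k) (θ : ℝ) (hθ : 0 < θ) :
    ∃ C : ℝ, 0 < C ∧ ∃ B n₀ : ℕ, ∀ n : ℕ, n₀ ≤ n → ∀ (a : ℤ) (X D : ℕ), -(n : ℤ) ≤ a → a + X ≤ n →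
      (n : ℝ) ^ θ ≤ X → Real.log n ^ B ≤ D → (progs k D (sols n a X) : ℝ) ≤ C * (X * D * dens n ^ k) := by
  classical
  obtain ⟨C, hC, B, n₁, h⟩ := Pool.Agent.Y843.AC.rep_up k 1 hk le_rfl (θ := θ / 2) (by positivity)
  obtain ⟨n₂, hc⟩ := conv θ hθ B
  refine ⟨C, hC, B + 1, max (max n₁ n₂) 1, fun n hn a X D ha haX hX hD => ?_⟩
  have hn1 : n₁ ≤ n := (le_max_left _ _).trans ((le_max_left _ _).trans hn)
  obtain ⟨c1, c2⟩ := hc n ((le_max_right _ _).trans ((le_max_left _ _).trans hn))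
  obtain ⟨i1, i2, i3⟩ := image_sub (S := sols n a X) ha (Subset.refl _)
  rw [progs_eq i2, dens_eq]
  exact h (2 * n) (by omega) (even_two_mul n) _ X D (c1.trans hX) (by omega) (c2.trans hD) _ i1
    (fun m hm => Or.inl (i3 m hm))

/-- **lower bounds** -/
theorem lower (k : ℕ) (hk : 1 ≤ k) (θ : ℝ) (hθ : 0 < θ) (δ : ℝ) (hδ : 0 < δ) :
    ∃ c : ℝ, 0 < c ∧ ∃ B n₀ : ℕ, ∀ n : ℕ, n₀ ≤ n → ∀ (a : ℤ) (X D : ℕ), -(n : ℤ) ≤ a → a + X ≤ n →
      (n : ℝ) ^ θ ≤ X → Real.log n ^ B ≤ D → D ≤ X → ∀ S : Finset ℤ, S ⊆ sols n a X →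
        (δ * (X * dens n) ≤ S.card → c * (X * D * dens n ^ k) ≤ progs k D S) ∧
        (δ * (X * D * dens n ^ k) ≤ progs k D S → c * (X * dens n) ≤ S.card) := by
  classical
  obtain ⟨c, hc0, B, n₁, h⟩ := Pool.Agent.Y843.AC.rep_dn k 1 hk le_rfl (θ := θ / 2) (by positivity) hδ
  obtain ⟨n₂, hc⟩ := conv θ hθ B
  refine ⟨c, hc0, B + 1, max (max n₁ n₂) 1, fun n hn a X D ha haX hX hD hDX S hS => ?_⟩
  have hn1 : n₁ ≤ n := (le_max_left _ _).trans ((le_max_left _ _).trans hn)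
  obtain ⟨c1, c2⟩ := hc n ((le_max_right _ _).trans ((le_max_left _ _).trans hn))
  obtain ⟨i1, i2, i3⟩ := image_sub ha hS
  have key := h (2 * n) (by omega) (even_two_mul n) _ X D (c1.trans hX) (by omega) (c2.trans hD) hDX _ i1
    (fun m hm => Or.inl (i3 m hm))
  rw [image_card i2] at key
  rw [progs_eq i2, dens_eq]
  exact key

/-- the number of progressions of solutions has the right order in all long windows, for all differences -/
def Right (k : ℕ) (c C : ℝ) (B A n : ℕ) : Prop :=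
  ∀ (a : ℤ) (X D : ℕ), -(n : ℤ) ≤ a → a + X ≤ n → (n : ℝ) / Real.log n ^ A ≤ X →
    Real.log n ^ B ≤ D → D ≤ X →
    c * (X * D * dens n ^ k) ≤ progs k D (sols n a X) ∧ (progs k D (sols n a X) : ℝ) ≤ C * (X * D * dens n ^ k)

/-- **almost all members of thin families** -/
theorem families (k : ℕ) (hk : 1 ≤ k) : ∃ c C : ℝ, 0 < c ∧ 0 < C ∧ ∃ B : ℕ, ∀ h B₀ C₀ A U : ℕ, 1 ≤ h →
    ∃ N₀ : ℕ, ∀ N : ℕ, N₀ ≤ N → ∀ (M : ℕ) (s : ℕ → ℕ), (∀ m ∈ Icc 1 M, s m ≤ B₀ * N) →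
      (energy h M s : ℝ) * N ≤ Real.log N ^ C₀ * (M : ℝ) ^ (2 * h) →
      ∀ T : Finset ℕ, T ⊆ Icc 1 M → (∀ m ∈ T, ¬ Right k c C B A (s m)) → (T.card : ℝ) ≤ M / Real.log N ^ U := by
  classical
  obtain ⟨C, hC, B1, n₁, hup⟩ := upper k hk (1 / 2) (by norm_num)
  obtain ⟨c, hc, B2, n₂, hlo⟩ := lower k hk (1 / 2) (by norm_num) (1 / 4) (by norm_num)
  refine ⟨c, C, hc, hC, max B1 B2, fun h B₀ C₀ A U hh => ?_⟩
  have hlogs : ∀ᶠ n : ℕ in atTop, Real.log n ^ A * (n : ℝ) ^ (1 / 2 : ℝ) ≤ n ∧ (1 : ℝ) ≤ Real.log n := by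
    have h1 : ∀ᶠ x : ℝ in atTop, ‖Real.log x ^ (A : ℝ)‖ ≤ 1 * ‖x ^ (1 / 2 : ℝ)‖ :=
      (isLittleO_log_rpow_rpow_atTop (A : ℝ) (show (0 : ℝ) < 1 / 2 by norm_num)).bound one_pos
    have h2 := (tendsto_natCast_atTop_atTop (R := ℝ)).eventually h1
    have h3 := (Real.tendsto_log_atTop.comp (tendsto_natCast_atTop_atTop (R := ℝ))).eventually_ge_atTop 1
    filter_upwards [h2, h3, eventually_ge_atTop 1] with n g1 g2 g3
    have g4 : (1 : ℝ) ≤ n := by exact_mod_cast g3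
    have g5 : (1 : ℝ) ≤ Real.log n := g2
    rw [one_mul, Real.norm_of_nonneg (by positivity), Real.norm_of_nonneg (by positivity), Real.rpow_natCast] at g1
    refine ⟨?_, g5⟩
    calc Real.log n ^ A * (n : ℝ) ^ (1 / 2 : ℝ) ≤ (n : ℝ) ^ (1 / 2 : ℝ) * (n : ℝ) ^ (1 / 2 : ℝ) := by gcongr
      _ = n := by rw [← Real.rpow_add (by linarith)]; norm_num
  obtain ⟨n₃, hn₃⟩ := eventually_atTop.1 hlogs
  -- a property of the even numbers `m = 2 n`
  have hP : ∀ m : ℕ, 2 * (max (max n₁ n₂) (max n₃ 4)) ≤ m → 2 ∣ m → WinP (1 / 2) (A + 1) m →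
      Right k c C (max B1 B2) A (m / 2) := by
    intro m hm h2 hW
    obtain ⟨n, rfl⟩ := h2
    have e0 : 2 * n / 2 = n := by omega
    rw [e0]
    have hnn : max (max n₁ n₂) (max n₃ 4) ≤ n := by omega
    have hn1 : n₁ ≤ n := (le_max_left _ _).trans ((le_max_left _ _).trans hnn)
    have hn2 : n₂ ≤ n := (le_max_right _ _).trans ((le_max_left _ _).trans hnn)
    have hn3 : n₃ ≤ n := (le_max_left _ _).trans ((le_max_right _ _).trans hnn)
    have hn4 : 4 ≤ n := (le_max_right _ _).trans ((le_max_right _ _).trans hnn)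
    obtain ⟨g1, g2⟩ := hn₃ n hn3
    intro a X D ha haX hX hDl hDX
    have hl0 : 0 < Real.log n := by linarith
    have hlA : 0 < Real.log n ^ A := by positivity
    have hXθ : (n : ℝ) ^ (1 / 2 : ℝ) ≤ X := by
      rw [div_le_iff₀ hlA] at hX
      have : (n : ℝ) ^ (1 / 2 : ℝ) * Real.log n ^ A ≤ X * Real.log n ^ A := by
        calc _ = Real.log n ^ A * (n : ℝ) ^ (1 / 2 : ℝ) := mul_comm _ _
          _ ≤ n := g1
          _ ≤ _ := hX
      exact le_of_mul_le_mul_right this hlA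
    have hDB1 : Real.log n ^ B1 ≤ D := (pow_le_pow_right₀ g2 (le_max_left _ _)).trans hDl
    have hDB2 : Real.log n ^ B2 ≤ D := (pow_le_pow_right₀ g2 (le_max_right _ _)).trans hDl
    refine ⟨?_, hup n hn1 a X D ha haX hXθ hDB1⟩
    refine (hlo n hn2 a X D ha haX hXθ hDB2 hDX _ (Subset.refl _)).1 ?_
    -- the number of solutions
    have hX0 : 0 < X := by
      have : (0 : ℝ) < X := lt_of_lt_of_le (by positivity) hXθ
      exact_mod_cast this
    set y := ((n : ℤ) + a).toNat with hy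
    have hy2 : y + X ≤ 2 * n := by omega
    have hcard : cnt (2 * n) y (y + X) ≤ (sols n a X).card := by
      unfold cnt
      rw [← image_card (n := n) (S := sols n a X) (fun x hx => by
        unfold sols at hx
        have := (Finset.mem_Ioc.1 (Finset.mem_filter.1 hx).1).1
        omega)]
      apply Finset.card_le_card
      intro p hp
      obtain ⟨h1, h2, h3⟩ := Finset.mem_filter.1 hp
      obtain ⟨h4, h5⟩ := Finset.mem_Ioc.1 h1
      refine Finset.mem_image.2 ⟨(p : ℤ) - n, ?_, by unfold fx; omega⟩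
      unfold sols
      refine Finset.mem_filter.2 ⟨Finset.mem_Ioc.2 ⟨by omega, by omega⟩, ?_⟩
      rw [solves_iff]
      have e1 : ((n : ℤ) + ((p : ℤ) - n)).toNat = p := by omega
      rw [e1]
      have := h3.one_lt
      exact ⟨by have := h2.one_lt; omega, by omega, h2, h3⟩
    have hlen : ((2 * n : ℕ) : ℝ) / Real.log ((2 * n : ℕ) : ℝ) ^ (A + 1) ≤ ((y + X : ℕ) : ℝ) - (y : ℝ) := by
      have e1 : ((y + X : ℕ) : ℝ) - (y : ℝ) = X := by push_cast; ring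
      rw [e1]
      refine le_trans ?_ hX
      have hl2 : Real.log n ≤ Real.log ((2 * n : ℕ) : ℝ) := by
        apply Real.log_le_log (by positivity)
        push_cast
        have : (0 : ℝ) ≤ n := Nat.cast_nonneg n
        linarith
      have hl3 : 2 ≤ Real.log ((2 * n : ℕ) : ℝ) := by
        have h8 : Real.log 8 ≤ Real.log ((2 * n : ℕ) : ℝ) := by
          apply Real.log_le_log (by norm_num)
          have : (4 : ℝ) ≤ n := by exact_mod_cast hn4
          push_cast; linarith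
        have h9 : Real.log 8 = 3 * Real.log 2 := by
          rw [show (8 : ℝ) = 2 ^ 3 by norm_num, Real.log_pow]; norm_num
        have := Real.log_two_gt_d9
        linarith
      have hl4 : Real.log n ^ A ≤ Real.log ((2 * n : ℕ) : ℝ) ^ A := pow_le_pow_left₀ hl0.le hl2 A
      have hn0 : (0 : ℝ) ≤ n := Nat.cast_nonneg n
      have hl5 : 0 < Real.log ((2 * n : ℕ) : ℝ) := by linarith
      rw [div_le_div_iff₀ (by positivity) hlA, pow_succ]
      push_cast at hl3 hl4 hl5 ⊢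
      calc 2 * (n : ℝ) * Real.log n ^ A ≤ 2 * n * Real.log (2 * n) ^ A := by gcongr
        _ = n * (Real.log (2 * n) ^ A * 2) := by ring
        _ ≤ n * (Real.log (2 * n) ^ A * Real.log (2 * n)) := by gcongr
    have hw := hW y (y + X) (by omega) hy2 hlen
    have e1 : ((y + X : ℕ) : ℝ) - (y : ℝ) = X := by push_cast; ring
    rw [e1] at hw
    have h2 : (0 : ℝ) ≤ X := Nat.cast_nonneg X
    obtain ⟨s1, -⟩ := Pool.Agent.TH894.SM.sing_tot (2 * n) (by omega) (dvd_mul_right 2 n)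
    have h3 := Pool.Agent.W93.GB.C2_half
    have h4 : (0 : ℝ) < ((2 * n : ℕ) : ℝ) := by positivity
    have h5 : (0 : ℝ) < ((2 * n).totient : ℝ) := by exact_mod_cast Nat.totient_pos.2 (by omega)
    have h6 : 1 / 2 * (((2 * n : ℕ) : ℝ) / (2 * n).totient) ≤ sing (2 * n) :=
      le_trans (mul_le_mul_of_nonneg_right h3 (by positivity)) s1
    have h7 : 0 < Real.log ((2 * n : ℕ) : ℝ) := Real.log_pos (by
      have : (4 : ℝ) ≤ n := by exact_mod_cast hn4
      push_cast; linarith)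
    have h8 := (abs_le.1 hw).1
    have h9 : (cnt (2 * n) y (y + X) : ℝ) ≤ (sols n a X).card := by exact_mod_cast hcard
    refine le_trans ?_ h9
    have h10 : 1 / 2 * (sing (2 * n) * X / Real.log ((2 * n : ℕ) : ℝ) ^ 2) ≤ cnt (2 * n) y (y + X) := by linarith
    refine le_trans ?_ h10
    unfold dens
    calc 1 / 4 * ((X : ℝ) * (((2 * n : ℕ) : ℝ) / ((2 * n).totient * Real.log ((2 * n : ℕ) : ℝ) ^ 2)))
        = 1 / 2 * ((1 / 2 * (((2 * n : ℕ) : ℝ) / (2 * n).totient)) * X / Real.log ((2 * n : ℕ) : ℝ) ^ 2) := by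
          field_simp; ring
      _ ≤ _ := by gcongr
  obtain ⟨N₀, hN₀⟩ := Pool.Agent.TH935.GF.fam_win h (2 * B₀) C₀ (A + 1) U
    (2 * (max (max n₁ n₂) (max n₃ 4))) hh (1 / 2) (by norm_num)
    (fun m => Right k c C (max B1 B2) A (m / 2)) hP
  refine ⟨N₀, fun N hN M s hs hE T hT hTb => ?_⟩
  have hen : energy h M (fun m => 2 * s m) = energy h M s := by
    unfold energy
    congr 1
    apply Finset.filter_congr
    intro q _
    rw [← Finset.mul_sum, ← Finset.mul_sum]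
    exact ⟨fun h => Nat.eq_of_mul_eq_mul_left (by norm_num) h, fun h => by rw [h]⟩
  refine hN₀ N hN M (fun m => 2 * s m) (fun m hm => ⟨?_, dvd_mul_right 2 _⟩) (by rw [hen]; exact hE) T hT ?_
  · have := hs m hm
    calc 2 * s m ≤ 2 * (B₀ * N) := by omega
      _ = 2 * B₀ * N := by ring
  · intro m hm
    have e : 2 * s m / 2 = s m := by omega
    show ¬ Right k c C (max B1 B2) A (2 * s m / 2)
    rw [e]
    exact hTb m hm

end Pool.Agent.X25.GP
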