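import Pool.Agent.Y843.AC.GoldPr
import Pool.Agent.TH935.GF
import Pool.Agent.TH894.SM0

/-! Narrow progressions of solutions of the Goldbach problem in the form `n ± x`. -/

set_option autoImplicit false

namespace Pool.Agent.X25.GP

open Finset Filter
open Pool.Agent.Y843.AC (APs dg Rep)
open Pool.Agent.H560R3.GB (sing C₂ energy)
open Pool.Agent.W93.PG (cnt WinP)

/-- the integer `x` is a solution of the system `φ(n - x) + 1 = n - x`, `φ(n + x) + 1 = n + x` -/
def Solves (n : ℕ) (x : ℤ) : Prop :=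
  ∃ p q : ℕ, 1 ≤ p ∧ 1 ≤ q ∧ (p : ℤ) = n - x ∧ (q : ℤ) = n + x ∧ p.totient + 1 = p ∧ q.totient + 1 = q

open Classical in
/-- the number of the progressions `x, x + d, ..., x + (k - 1) d` in `S` with `1 ≤ d ≤ D` -/
noncomputable def progs (k D : ℕ) (S : Finset ℤ) : ℕ :=
  ((S ×ˢ Icc 1 D).filter (fun q : ℤ × ℕ => ∀ j < k, q.1 + (j * q.2 : ℕ) ∈ S)).card

/-- `2n / (φ(2n) (log 2n)²)` -/
noncomputable def dens (n : ℕ) : ℝ := ((2 * n : ℕ) : ℝ) / ((2 * n).totient * Real.log ((2 * n : ℕ) : ℝ) ^ 2)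

open Classical in
/-- the solutions in the window `(a, a + X]` -/
noncomputable def sols (n : ℕ) (a : ℤ) (X : ℕ) : Finset ℤ := (Ioc a (a + X)).filter (Solves n)

theorem tot_prime {p : ℕ} (hp : 1 ≤ p) (h : p.totient + 1 = p) : p.Prime := by
  have h1 : p.totient = p - 1 := by omega
  rcases Nat.lt_or_ge p 2 with h2 | h2
  · have : p = 1 := by omega
    subst this
    simp at h
  · exact (Nat.totient_eq_iff_prime (by omega)).1 h1

theorem solves_iff (n : ℕ) (x : ℤ) : Solves n x ↔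
    -(n : ℤ) < x ∧ x < n ∧ ((n : ℤ) + x).toNat.Prime ∧ (2 * n - ((n : ℤ) + x).toNat).Prime := by
  constructor
  · rintro ⟨p, q, hp, hq, h1, h2, h3, h4⟩
    have hp' := tot_prime hp h3
    have hq' := tot_prime hq h4
    have e1 : ((n : ℤ) + x).toNat = q := by omega
    have e2 : 2 * n - ((n : ℤ) + x).toNat = p := by omega
    refine ⟨by omega, by omega, by rw [e1]; exact hq', by rw [e2]; exact hp'⟩
  · rintro ⟨h1, h2, h3, h4⟩
    refine ⟨2 * n - ((n : ℤ) + x).toNat, ((n : ℤ) + x).toNat, h4.one_lt.le, h3.one_lt.le, by omega, by omega, ?_, ?_⟩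
    · rw [Nat.totient_prime h4]; have := h4.one_lt; omega
    · rw [Nat.totient_prime h3]; have := h3.one_lt; omega

theorem dens_eq (n : ℕ) : dens n = dg (2 * n) := rfl

/-- the map from `x` to the prime `n + x` -/
def fx (n : ℕ) (x : ℤ) : ℕ := ((n : ℤ) + x).toNat

theorem fx_inj {n : ℕ} {x y : ℤ} (hx : -(n : ℤ) < x) (hy : -(n : ℤ) < y) (h : fx n x = fx n y) : x = y := by
  unfold fx at h; omega

theorem image_card {n : ℕ} {S : Finset ℤ} (hS : ∀ x ∈ S, -(n : ℤ) < x) : (S.image (fx n)).card = S.card := by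
  apply Finset.card_image_of_injOn
  intro x hx y hy h
  exact fx_inj (hS x hx) (hS y hy) h

theorem progs_eq {n k D : ℕ} {S : Finset ℤ} (hS : ∀ x ∈ S, -(n : ℤ) < x) :
    progs k D S = (APs k D (S.image (fx n))).card := by
  classical
  unfold progs APs
  apply Finset.card_bij (fun q _ => (fx n q.1, q.2))
  · rintro ⟨x, d⟩ hq
    obtain ⟨h1, h2⟩ := Finset.mem_filter.1 hq
    obtain ⟨h3, h4⟩ := Finset.mem_product.1 h1
    refine Finset.mem_filter.2 ⟨Finset.mem_product.2 ⟨Finset.mem_image_of_mem _ h3, h4⟩, fun j hj => ?_⟩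
    have h5 := h2 j hj
    refine Finset.mem_image.2 ⟨_, h5, ?_⟩
    have h6 := hS x h3
    show ((n : ℤ) + (x + (j * d : ℕ))).toNat = ((n : ℤ) + x).toNat + j * d
    omega
  · rintro ⟨x, d⟩ hq ⟨y, e⟩ hq' h
    obtain ⟨h3, -⟩ := Finset.mem_product.1 (Finset.mem_filter.1 hq).1
    obtain ⟨h3', -⟩ := Finset.mem_product.1 (Finset.mem_filter.1 hq').1
    simp only [Prod.mk.injEq] at h
    obtain ⟨g1, g2⟩ := h
    rw [fx_inj (hS x h3) (hS y h3') g1, g2]
  · rintro ⟨m, d⟩ hq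
    obtain ⟨h1, h2⟩ := Finset.mem_filter.1 hq
    obtain ⟨h3, h4⟩ := Finset.mem_product.1 h1
    obtain ⟨x, hx, hxm⟩ := Finset.mem_image.1 h3
    refine ⟨(x, d), Finset.mem_filter.2 ⟨Finset.mem_product.2 ⟨hx, h4⟩, fun j hj => ?_⟩, ?_⟩
    · obtain ⟨y, hy, hym⟩ := Finset.mem_image.1 (h2 j hj)
      have g1 := hS x hx
      have g2 := hS y hy
      have g3 : fx n x = m := hxm
      have g4 : fx n y = m + j * d := hym
      have g5 : y = x + (j * d : ℕ) := by unfold fx at g3 g4; omega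
      show x + (j * d : ℕ) ∈ S
      rw [← g5]; exact hy
    · show (fx n x, d) = (m, d)
      have g3 : fx n x = m := hxm
      rw [g3]

end Pool.Agent.X25.GP
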